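import Pool.Agent.helper96.SV.SpecA

/-!
# Project sva (MP_b5a345_ag): module BR2
-/

set_option autoImplicit false
set_option linter.unusedSectionVars false

namespace Pool.Agent.SVA

open Polynomial Module
open Pool.Agent.SV

theorem BR2_ten {K : Type} [Fintype K] [DecidableEq K] {m : K → ℕ} (y : Py m) (i : K)
    (w : Fin (m i + 1) → ℂ) (β : Bx m) :
    ten (Function.update y i w) β = w (β i) * ∏ i' ∈ Finset.univ.erase i, y i' (β i') := by
  unfold ten
  rw [← Finset.mul_prod_erase Finset.univ _ (Finset.mem_univ i), Function.update_self]
  congr 1
  refine Finset.prod_congr rfl fun i' hi' => ?_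
  rw [Function.update_of_ne (Finset.ne_of_mem_erase hi')]

theorem BR2_lin {K : Type} [Fintype K] [DecidableEq K] {m : K → ℕ} (a : Bx m → ℂ) (y : Py m)
    (i : K) (h : ∀ j, pr a (ten (Function.update y i (Pi.single j 1))) = 0)
    (w : Fin (m i + 1) → ℂ) : pr a (ten (Function.update y i w)) = 0 := by
  have key : pr a (ten (Function.update y i w)) =
      ∑ j, w j * pr a (ten (Function.update y i (Pi.single j 1))) := by
    unfold pr
    simp only [BR2_ten, Finset.mul_sum]
    rw [Finset.sum_comm]
    refine Finset.sum_congr rfl fun β _ => ?_
    rw [Finset.sum_eq_single (β i)]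
    · rw [Pi.single_eq_same]
      ring
    · intro j _ hj
      rw [Pi.single_eq_of_ne (Ne.symm hj)]
      ring
    · intro hj
      exact absurd (Finset.mem_univ _) hj
  rw [key]
  exact Finset.sum_eq_zero fun j _ => by rw [h j, mul_zero]

/-- BR2 -/
theorem BR2 (hBR1 : BR1_stmt) (hPDV : PDV_stmt) : BR2_stmt := by
  intro k n d l hl hd f hf P hP
  obtain ⟨y, p⟩ := P
  have hval := (hBR1 k n d l hl hd f hf).2.1
  rw [mem_Sg]
  constructor
  · -- tangent directions
    have hgen : ∀ (i : {i : Fin k // i ≠ l}) (j : Fin (mm n l i + 1)),
        pr (ev p (fun β => fr n l f β)) (ten (Function.update y i (Pi.single j 1))) = 0 := by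
      intro i j
      obtain ⟨hd1, hd2⟩ := hPDV f (toPt n l (y, p)) (⟨i.1, j⟩ : Var n)
      have hshift : ∀ s : ℂ, (fun w : Var n => toPt n l (y, p) w +
          if w = (⟨i.1, j⟩ : Var n) then s else 0) =
          toPt n l (Function.update y i (y i + s • Pi.single j 1), p) := by
        intro s
        funext w
        obtain ⟨w1, w2⟩ := w
        by_cases hw : w1 = l
        · have hne : (⟨w1, w2⟩ : Var n) ≠ ⟨i.1, j⟩ := by
            intro hc
            have : w1 = i.1 := congrArg Sigma.fst hc
            exact i.2 (this ▸ hw)
          rw [if_neg hne, add_zero]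
          unfold toPt
          simp only [hw, dif_pos]
        · by_cases hwi : w1 = i.1
          · subst hwi
            unfold toPt
            simp only [hw, dif_neg, not_false_eq_true]
            change (y i w2 + if (⟨i.1, w2⟩ : Var n) = ⟨i.1, j⟩ then s else 0) =
              Function.update y i (y i + s • Pi.single j 1) i w2
            rw [Function.update_self]
            by_cases hj : w2 = j
            · subst hj
              simp
            · have hne : (⟨i.1, w2⟩ : Var n) ≠ ⟨i.1, j⟩ := by
                intro hc
                apply hj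
                exact eq_of_heq (Sigma.mk.inj hc).2
              rw [if_neg hne]
              simp [Pi.single_eq_of_ne hj]
          · have hne : (⟨w1, w2⟩ : Var n) ≠ ⟨i.1, j⟩ := by
              intro hc
              exact hwi (congrArg Sigma.fst hc)
            rw [if_neg hne, add_zero]
            unfold toPt
            simp only [hw, dif_neg, not_false_eq_true]
            rw [Function.update_of_ne]
            intro hc
            exact hwi (congrArg Subtype.val hc)
      have hpoly : (MvPolynomial.aeval
          (fun w => C (toPt n l (y, p) w) + (if w = (⟨i.1, j⟩ : Var n) then X else 0) :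
            Var n → ℂ[X]) f) =
          C (∑ β, (fr n l f β).eval p * ten y β) + X * C (pr (ev p (fun β => fr n l f β))
            (ten (Function.update y i (Pi.single j 1)))) := by
        apply Polynomial.funext
        intro s
        rw [hd2 s, hshift s, hval]
        rw [eval_add, eval_mul, eval_C, eval_C, eval_X]
        unfold pr ev
        rw [Finset.mul_sum, ← Finset.sum_add_distrib]
        refine Finset.sum_congr rfl fun β _ => ?_
        have hy : ten y β = ten (Function.update y i (y i)) β := by
          rw [Function.update_eq_self]
        rw [hy, BR2_ten, BR2_ten, BR2_ten, Pi.add_apply, Pi.smul_apply, smul_eq_mul]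
        ring
      rw [hpoly] at hd1
      rw [derivative_add, derivative_C, derivative_mul, derivative_X, derivative_C] at hd1
      rw [hP] at hd1
      simpa using hd1
    intro z hz
    refine Submodule.span_induction (p := fun z _ => pr (ev p (fun β => fr n l f β)) z = 0)
      ?_ ?_ ?_ ?_ hz
    · rintro z ⟨i, w, rfl⟩
      exact BR2_lin _ y i (hgen i) w
    · exact pr_zero_right _
    · intro a b _ _ ha hb
      rw [pr_add_right, ha, hb, add_zero]
    · intro s a _ ha
      rw [pr_smul_right, ha, mul_zero]
  · -- the direction of `P^1`
    have hl1 : 1 < n l + 1 := by omega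
    obtain ⟨hd1, hd2⟩ := hPDV f (toPt n l (y, p)) (⟨l, ⟨1, hl1⟩⟩ : Var n)
    have hshift : ∀ s : ℂ, (fun w : Var n => toPt n l (y, p) w +
        if w = (⟨l, ⟨1, hl1⟩⟩ : Var n) then s else 0) = toPt n l (y, p + s) := by
      intro s
      funext w
      obtain ⟨w1, w2⟩ := w
      by_cases hw : w1 = l
      · subst hw
        unfold toPt
        simp only [dif_pos]
        by_cases h0 : (w2 : ℕ) = 0
        · have hne : (⟨w1, w2⟩ : Var n) ≠ ⟨w1, ⟨1, hl1⟩⟩ := by
            intro hc
            have h2 := eq_of_heq (Sigma.mk.inj hc).2
            rw [h2] at h0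
            simp at h0
          rw [if_neg hne, if_pos h0, if_pos h0, add_zero]
        · have he : w2 = ⟨1, hl1⟩ := by
            apply Fin.ext
            have := w2.2
            simp only
            omega
          subst he
          rw [if_pos rfl, if_neg h0, if_neg h0]
      · have hne : (⟨w1, w2⟩ : Var n) ≠ ⟨l, ⟨1, hl1⟩⟩ := by
          intro hc
          exact hw (congrArg Sigma.fst hc)
        rw [if_neg hne, add_zero]
        unfold toPt
        simp only [hw, dif_neg, not_false_eq_true]
    have hpoly : (MvPolynomial.aeval
        (fun w => C (toPt n l (y, p) w) + (if w = (⟨l, ⟨1, hl1⟩⟩ : Var n) then X else 0) :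
          Var n → ℂ[X]) f) =
        ∑ β, (fr n l f β).comp (C p + X) * C (ten y β) := by
      apply Polynomial.funext
      intro s
      rw [hd2 s, hshift s, hval, eval_finsetSum]
      refine Finset.sum_congr rfl fun β _ => ?_
      rw [eval_mul, eval_comp, eval_add, eval_C, eval_C, eval_X]
    rw [hpoly, hP, derivative_sum, eval_finsetSum] at hd1
    unfold pr dv
    rw [← hd1]
    refine Finset.sum_congr rfl fun β _ => ?_
    rw [derivative_mul, derivative_C, mul_zero, add_zero, derivative_comp, eval_mul, eval_mul,
      eval_comp]
    simp

end Pool.Agent.SVA
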