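import Pool.Agent.helper96.SV.SpecA

/-!
# Project sva (MP_b5a345_ag): module BST
-/

set_option autoImplicit false
set_option linter.unusedSectionVars false

namespace Pool.Agent.SVA

open Polynomial Module

/-- BST -/
theorem BST (hSEM : SEM_stmt) (hBLD : BLD_stmt) (hCNT : CNT_stmt) : BST_stmt := by
  intro K _ _ _ m e x r hG
  obtain ⟨he, hx, hxv, hc, l, hl, h1, h0⟩ := hG
  obtain ⟨t₀, ht₀⟩ := Infinite.exists_notMem_finset (l.map Prod.snd).toFinset
  have ht : ∀ P ∈ l, P.2 ≠ t₀ := by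
    intro P hP hc
    apply ht₀
    rw [List.mem_toFinset, List.mem_map]
    exact ⟨P, hP, hc⟩
  let σ : Bx m → ℂ := fun α => ((Fintype.equivFin (Bx m) α : Fin _) : ℕ)
  have hσ : Function.Injective σ := by
    intro α β h
    have h' : ((Fintype.equivFin (Bx m) α : ℕ) : ℂ) = ((Fintype.equivFin (Bx m) β : ℕ) : ℂ) := h
    exact (Fintype.equivFin (Bx m)).injective (Fin.ext (Nat.cast_injective h'))
  have hA := hSEM e l t₀ σ ht
  have hB := hSEM (e - 1) l t₀ σ ht
  obtain ⟨ε, hε⟩ := Infinite.exists_notMem_finset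
    (hA.toFinset ∪ hB.toFinset ∪ {(0 : ℂ)})
  rw [Finset.mem_union, Finset.mem_union, Set.Finite.mem_toFinset, Set.Finite.mem_toFinset,
    Finset.mem_singleton] at hε
  have hε0 : ε ≠ 0 := fun h => hε (Or.inr h)
  have hεA : finrank ℂ (NF e (phi (fun α => t₀ + ε * σ α)) l) ≤ finrank ℂ (NN e l) := by
    by_contra h
    exact hε (Or.inl (Or.inl h))
  have hεB : finrank ℂ (NF (e - 1) (phi (fun α => t₀ + ε * σ α)) l) ≤
      finrank ℂ (NN (e - 1) l) := by
    by_contra h
    exact hε (Or.inl (Or.inr h))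
  have hq : Function.Injective (fun α => t₀ + ε * σ α) := by
    intro α β h
    have h2 : ε * σ α = ε * σ β := add_left_cancel h
    exact hσ (mul_left_cancel₀ hε0 h2)
  have hlen : (blkL (fun α => t₀ + ε * σ α) ++ l).length = r + vv m := by
    rw [List.length_append, length_blkL, hl, Nat.add_comm]
  have hcnt := (hCNT (e + DD m) (blkL (fun α => t₀ + ε * σ α) ++ l) ((fun _ _ => 0), 0)).2
  rw [hlen] at hcnt
  have hle : finrank ℂ (NN (e + DD m) (blkL (fun α => t₀ + ε * σ α) ++ l)) ≤ x := by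
    rw [hBLD _ hq e l, ← h1]
    exact hεA
  have hz : finrank ℂ (NN (e + DD m - 1) (blkL (fun α => t₀ + ε * σ α) ++ l)) = 0 := by
    have h2 : e + DD m - 1 = (e - 1) + DD m := by omega
    rw [h2, hBLD _ hq (e - 1) l]
    rw [h0] at hεB
    exact Nat.le_zero.mp hεB
  have hcnt2 : vv m * (e + DD m) = x + (r + vv m) * DD m := by
    rw [Nat.mul_add, hc, Nat.add_mul]
    ring
  refine ⟨by omega, hx, hxv, hcnt2, _, hlen, ?_, hz⟩
  refine le_antisymm hle ?_
  rw [hcnt2] at hcnt
  exact Nat.le_of_add_le_add_right hcnt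

end Pool.Agent.SVA
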